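import Pool.Agent.Helper719.Trig.Main
import Pool.Agent.Helper719.Signs.TrigS

open MeasureTheory

namespace Pool.Agent.Results.MP_a7b2aa_an.Combined

open TrigSB

/-- The trigonometric small ball inequality with the conjectured exponent, `d ≥ 3`, `n = 2m`:
(1) volume form, (2) smoothed form, (3) all but `2^(εN)` sign patterns for moduli in `[δ, 1]`. -/
theorem result (d : ℕ) (hd : 3 ≤ d) :
    (∃ C : ℝ, 0 < C ∧ ∀ m : ℕ, 1 ≤ m → ∀ l : ℝ, 0 < l →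
      volume {a : (freq d m) × Fin 2 → ℝ | supNorm m (coef a) ≤ l} ≤
        ENNReal.ofReal ((C * l / (Real.sqrt (2^(2*m)) * Real.sqrt (((2*m : ℕ):ℝ)^d))) ^
          (Fintype.card ((freq d m) × Fin 2)))) ∧
    (∀ δ ε : ℝ, 0 < δ → 0 < ε → ∃ c : ℝ, 0 < c ∧ ∀ m : ℕ, 1 ≤ m →
      ∀ u : (freq d m) × Fin 2 → ℝ, (∀ i, |u i| ≤ 1) →
        volume {a : (freq d m) × Fin 2 → ℝ | (∀ i, |a i - u i| ≤ δ) ∧
          ((2 * m : ℕ) : ℝ)^(((d:ℝ) - 2) / 2) * supNorm m (coef a) <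
            c * ∑ l ∈ Finset.Nat.antidiagonalTuple d m, L1 (coef a) l} ≤
        ENNReal.ofReal (ε ^ Fintype.card ((freq d m) × Fin 2)) *
          volume {a : (freq d m) × Fin 2 → ℝ | ∀ i, |a i - u i| ≤ δ}) ∧
    (∀ ε δ : ℝ, 0 < ε → 0 < δ → ∃ c : ℝ, 0 < c ∧ ∀ m : ℕ, 1 ≤ m → ∀ a : (Fin d → ℤ) → ℂ,
      (∀ k ∈ freq d m, δ ≤ ‖a k‖ ∧ ‖a k‖ ≤ 1) →
      (Set.ncard {u : Finset (Fin d → ℤ) | u ⊆ freq d m ∧
        ((2 * m : ℕ) : ℝ)^(((d:ℝ) - 2) / 2) * supNorm m (fun k => if k ∈ u then a k else - a k) <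
          c * ∑ l ∈ Finset.Nat.antidiagonalTuple d m, L1 (fun k => if k ∈ u then a k else - a k) l} : ℝ) ≤
        (2:ℝ)^(ε * (freq d m).card)) :=
  ⟨vol_trig d hd, fun δ ε hδ hε => smooth d hd δ ε hδ hε, fun ε δ hε hδ => signs d hd ε δ hε hδ⟩

end Pool.Agent.Results.MP_a7b2aa_an.Combined
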