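import Pool.Agent.Helper719.Signs.TrigS

open MeasureTheory

namespace Pool.Agent.Results.MP_a7b2aa_an.Signs

open TrigSB

/-- The trigonometric small ball inequality (`n = 2m`) for all but `2^(εN)` of the `2^N` sign
patterns (`u` is the set of frequencies whose coefficient keeps its sign). -/
theorem result (d : ℕ) (hd : 3 ≤ d) (ε δ : ℝ) (hε : 0 < ε) (hδ : 0 < δ) :
    ∃ c : ℝ, 0 < c ∧ ∀ m : ℕ, 1 ≤ m → ∀ a : (Fin d → ℤ) → ℂ,
      (∀ k ∈ freq d m, δ ≤ ‖a k‖ ∧ ‖a k‖ ≤ 1) →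
      (Set.ncard {u : Finset (Fin d → ℤ) | u ⊆ freq d m ∧
        ((2 * m : ℕ) : ℝ)^(((d:ℝ) - 2) / 2) * supNorm m (fun k => if k ∈ u then a k else - a k) <
          c * ∑ l ∈ Finset.Nat.antidiagonalTuple d m, L1 (fun k => if k ∈ u then a k else - a k) l} : ℝ) ≤
        (2:ℝ)^(ε * (freq d m).card) :=
  signs d hd ε δ hε hδ

end Pool.Agent.Results.MP_a7b2aa_an.Signs
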